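import Pool.Agent.EFG.M1
import Pool.Agent.EFN.M2

/-!
# Descent, given the finiteness of the points modulo doubles
-/

set_option autoImplicit false
set_option linter.unusedSectionVars false

namespace Pool.Agent.EFG

open WeierstrassCurve WeierstrassCurve.Affine EFF Polynomial Pool.Agent.EFN

open scoped Classical

/-- The conclusion, given the finiteness of `M / 2 M`. -/
theorem main_W {k K : Type} [Field k] [Finite k] [Field K] [Algebra k K] [FF k K]
    (h2 : (2 : k) ≠ 0) (W : WeierstrassCurve K) (h1 : W.a₁ = 0) (h3 : W.a₃ = 0) (hΔ : W.Δ ≠ 0)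
    (hj : ∀ j : K, IsAlgebraic k j → W.c₄ ^ 3 ≠ j * W.Δ)
    (hq : ∃ R : Finset (Pts W (Kb K)),
      (∀ r ∈ R, Fix k _ r) ∧ ∀ P, Fix k _ P → ∃ r ∈ R, ∃ Q, Fix k _ Q ∧ P = r + 2 • Q)
    (c : ℕ → (Kb K ≃ₐ[K] Kb K) → Pts W (Kb K)) (hc : ShaSys W k 2 c)
    (hgeo : ∀ n, Principal W (T1B.geo k K (Kb K)) (c n)) (n : ℕ) :
    Principal W ⊤ (c n) := by
  obtain ⟨p, hp⟩ := CharP.exists k
  have hpp : p.Prime := by
    rcases CharP.char_is_prime_or_zero k p with h | h
    · exact h
    · exfalso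
      rw [h] at hp
      have : CharZero k := CharP.charP_to_charZero k
      exact not_finite k
  have : Fact p.Prime := ⟨hpp⟩
  have hp2 : p ≠ 2 := by
    rintro rfl
    apply h2
    exact_mod_cast CharP.cast_eq_zero k 2
  obtain ⟨R, hRf, hR⟩ := hq
  have h2' : (2 : Kb K) ≠ 0 := by
    intro h0
    apply h2
    apply (algebraMap k (Kb K)).injective
    rw [map_ofNat, map_zero, h0]
  obtain ⟨e₁, e₂, e₃, hr⟩ := m_exists_rts (W.baseChange (Kb K)) h2'
    (by
      show algebraMap K (Kb K) W.a₁ = 0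
      rw [h1, map_zero])
    (by
      show algebraMap K (Kb K) W.a₃ = 0
      rw [h3, map_zero])
    (by
      rw [show (W.baseChange (Kb K)).Δ = algebraMap K (Kb K) W.Δ from W.map_Δ _]
      exact (_root_.map_ne_zero _).2 hΔ)
  obtain ⟨e, he⟩ := tors_bd W p hp2 hr hj
  exact main_of W R hRf hR e he c hc hgeo n

end Pool.Agent.EFG
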