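import Pool.Agent.T1B.Defs
import Pool.Agent.TBM.Br

/-!
# The algebraic closure of a function field of one variable
-/

set_option autoImplicit false

namespace Pool.Agent.EFG

open Polynomial

/-- `K` is a finite extension of a field `k(z)` of rational functions -/
class FF (k K : Type) [Field k] [Field K] [Algebra k K] : Prop where
  out : ∃ z : K, Transcendental k z ∧ FiniteDimensional (IntermediateField.adjoin k {z}) K

variable (k K : Type) [Field k] [Field K] [Algebra k K]

/-- the algebraic closure of `K` -/
abbrev Kb (K : Type) [Field K] : Type := AlgebraicClosure K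

/-- the algebraic closure of `k` -/
noncomputable abbrev Ck : IntermediateField k (Kb K) := algebraicClosure k (Kb K)

variable {k K} in
theorem Ck_closed : IsAlgClosed (Ck k K) := IsAlgClosure.isAlgClosed (R := k)

variable {k K} in
theorem mem_Ck {x : Kb K} : x ∈ Ck k K ↔ IsAlgebraic k x := mem_algebraicClosure_iff

variable {k K} in
theorem alg_k {x : Kb K} (hx : IsAlgebraic (Ck k K) x) : IsAlgebraic k x := hx.restrictScalars k

variable [FF k K]

/-- the variable in `K` -/
noncomputable def z0 : K := (FF.out (k := k) (K := K)).choose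

theorem z0_trans : Transcendental k (z0 k K) := (FF.out (k := k) (K := K)).choose_spec.1

theorem z0_fin : FiniteDimensional (IntermediateField.adjoin k {z0 k K}) K :=
  (FF.out (k := k) (K := K)).choose_spec.2

/-- the variable -/
noncomputable def zz : Kb K := algebraMap K (Kb K) (z0 k K)

theorem ess : Algebra.EssFiniteType k K := by
  have h1 := z0_fin k K
  have h2 : Algebra.EssFiniteType k (IntermediateField.adjoin k {z0 k K}) :=
    IntermediateField.essFiniteType_iff.2
      (IntermediateField.fg_adjoin_of_finite (Set.finite_singleton _))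
  exact Algebra.EssFiniteType.comp k (IntermediateField.adjoin k {z0 k K}) K

/-- generators of `K` -/
noncomputable def TT0 : Finset K := by
  have := ess k K
  exact (IntermediateField.fg_top k K).choose

theorem TT0_top : IntermediateField.adjoin k (TT0 k K : Set K) = ⊤ := by
  have := ess k K
  exact (IntermediateField.fg_top k K).choose_spec

/-- generators of `K` in the algebraic closure -/
noncomputable def TT : Set (Kb K) :=
  insert (zz k K) (algebraMap K (Kb K) '' (TT0 k K : Set K))

theorem TT_fin : (TT k K).Finite := ((TT0 k K).finite_toSet.image _).insert _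

theorem zz_mem : zz k K ∈ TT k K := Set.mem_insert _ _

theorem TT_fix {x : Kb K} (hx : x ∈ TT k K) (σ : Kb K ≃ₐ[K] Kb K) : σ x = x := by
  rcases hx with rfl | ⟨y, -, rfl⟩
  · exact σ.commutes _
  · exact σ.commutes _

variable {k K}

theorem mem_of_rat (S : Set (Kb K)) (hS : TT k K ⊆ S) (f : K) :
    algebraMap K (Kb K) f ∈ IntermediateField.adjoin (Ck k K) S := by
  have h1 : f ∈ IntermediateField.adjoin k (TT0 k K : Set K) := by
    rw [TT0_top]
    exact IntermediateField.mem_top
  have h2 : ∀ g ∈ IntermediateField.adjoin k (TT0 k K : Set K),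
      algebraMap K (Kb K) g ∈ IntermediateField.adjoin (Ck k K) S := by
    intro g hg
    induction hg using IntermediateField.adjoin_induction with
    | mem x hx =>
      exact IntermediateField.subset_adjoin _ _ (hS (Or.inr ⟨x, hx, rfl⟩))
    | algebraMap x =>
      rw [← IsScalarTower.algebraMap_apply k K (Kb K),
        IsScalarTower.algebraMap_apply k (Ck k K) (Kb K)]
      exact IntermediateField.algebraMap_mem _ _
    | add x y _ _ hx hy => rw [map_add]; exact add_mem hx hy
    | inv x _ hx => rw [map_inv₀]; exact inv_mem hx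
    | mul x y _ _ hx hy => rw [map_mul]; exact mul_mem hx hy
  exact h2 f h1

theorem zz_trans : Transcendental (Ck k K) (zz k K) := by
  intro h
  have h1 : IsAlgebraic k (zz k K) := alg_k h
  have h2 : IsAlgebraic k (z0 k K) :=
    (isAlgebraic_algebraMap_iff (algebraMap K (Kb K)).injective).1 h1
  exact z0_trans k K h2

/-- everything is algebraic over `k(z)` -/
theorem alg_z (S : Set (Kb K)) (hS : zz k K ∈ S) (x : Kb K) :
    IsAlgebraic (IntermediateField.adjoin (Ck k K) S) x := by
  have h0 := z0_fin k K
  have h1 : Algebra.IsAlgebraic (IntermediateField.adjoin k {z0 k K}) K :=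
    Algebra.IsAlgebraic.of_finite _ _
  have h2 : Algebra.IsAlgebraic (IntermediateField.adjoin k {z0 k K}) (Kb K) :=
    Algebra.IsAlgebraic.trans _ K _
  have hx : IsAlgebraic (IntermediateField.adjoin k {z0 k K}) x := h2.isAlgebraic x
  obtain ⟨p, hp0, hp⟩ := hx
  have h3 : ∀ g ∈ IntermediateField.adjoin k {z0 k K},
      algebraMap K (Kb K) g ∈ IntermediateField.adjoin (Ck k K) S := by
    intro g hg
    induction hg using IntermediateField.adjoin_induction with
    | mem x hx =>
      rw [Set.mem_singleton_iff] at hx
      rw [hx]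
      exact IntermediateField.subset_adjoin _ _ hS
    | algebraMap x =>
      rw [← IsScalarTower.algebraMap_apply k K (Kb K),
        IsScalarTower.algebraMap_apply k (Ck k K) (Kb K)]
      exact IntermediateField.algebraMap_mem _ _
    | add x y _ _ hx hy => rw [map_add]; exact add_mem hx hy
    | inv x _ hx => rw [map_inv₀]; exact inv_mem hx
    | mul x y _ _ hx hy => rw [map_mul]; exact mul_mem hx hy
  let g : IntermediateField.adjoin k {z0 k K} →+* IntermediateField.adjoin (Ck k K) S :=
    ((algebraMap K (Kb K)).comp (algebraMap (IntermediateField.adjoin k {z0 k K}) K)).codRestrict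
      (IntermediateField.adjoin (Ck k K) S).toSubfield (fun f => h3 _ f.2)
  refine ⟨p.map g, (Polynomial.map_ne_zero_iff g.injective).2 hp0, ?_⟩
  rw [Polynomial.aeval_def, Polynomial.eval₂_map]
  exact hp

open scoped IntermediateField.algebraAdjoinAdjoin in
theorem trdeg_Ck : Algebra.trdeg (Ck k K) (Kb K) ≤ 1 := by
  have h1 : Algebra.IsAlgebraic (IntermediateField.adjoin (Ck k K) {zz k K}) (Kb K) :=
    ⟨fun x => alg_z {zz k K} rfl x⟩
  have h2 : IsTranscendenceBasis (Ck k K) (fun _ : Unit => zz k K) := by
    have hi : AlgebraicIndependent (Ck k K) (fun _ : Unit => zz k K) :=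
      algebraicIndependent_unique_type_iff.2 zz_trans
    rw [hi.isTranscendenceBasis_iff_isAlgebraic, Set.range_const]
    exact (IsFractionRing.comap_isAlgebraic_iff (A := Algebra.adjoin (Ck k K) {zz k K})
        (K := IntermediateField.adjoin (Ck k K) {zz k K}) (C := Kb K)).2 h1
  have h4 := h2.cardinalMk_eq_trdeg
  rw [Cardinal.mk_fintype, Fintype.card_unit, Nat.cast_one] at h4
  exact h4.symm.le

/-- everything is algebraic over `k(w)` -/
theorem alg_w {w : Kb K} (hw : Transcendental (Ck k K) w) (x : Kb K) :
    IsAlgebraic (IntermediateField.adjoin (Ck k K) {w}) x := by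
  have hi : AlgebraicIndependent (Ck k K) (fun _ : Unit => w) :=
    algebraicIndependent_unique_type_iff.2 hw
  have h1 : IsTranscendenceBasis (Ck k K) (fun _ : Unit => w) := by
    refine hi.isTranscendenceBasis_of_trdeg_le_of_finite ?_
    rw [Cardinal.mk_fintype, Fintype.card_unit, Nat.cast_one]
    exact trdeg_Ck
  have h2 := h1.isAlgebraic_field
  rw [Set.range_const] at h2
  exact h2.isAlgebraic x

/-- **The fixed elements.** -/
theorem fixed_mem (p : ℕ) [ExpChar (Kb K) p] (S : Set (Kb K)) (x : Kb K)
    (hx : ∀ σ ∈ T1B.geo k K (Kb K), (∀ y ∈ S, σ y = y) → σ x = x) :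
    ∃ r : ℕ, x ^ p ^ r ∈ IntermediateField.adjoin (Ck k K) (TT k K ∪ S) := by
  obtain ⟨E, hE⟩ : ∃ E : IntermediateField K (Kb K),
    E = IntermediateField.adjoin K ((Ck k K : Set (Kb K)) ∪ S) := ⟨_, rfl⟩
  have halg : ∀ x : Kb K, IsAlgebraic E x := by
    intro x
    have hx : IsAlgebraic K x := Algebra.IsAlgebraic.isAlgebraic x
    exact hx.tower_top E
  obtain ⟨r, hr⟩ := TBR.perf p E halg x (by
    intro σ hσ
    refine hx σ (fun y hy => ?_) (fun y hy => ?_)
    · refine hσ y ?_
      rw [hE]
      exact IntermediateField.subset_adjoin _ _ (Or.inl (mem_Ck.2 hy))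
    · refine hσ y ?_
      rw [hE]
      exact IntermediateField.subset_adjoin _ _ (Or.inr hy))
  refine ⟨r, ?_⟩
  obtain ⟨F, hF⟩ : ∃ F : IntermediateField K (Kb K),
      ∀ y, y ∈ F ↔ y ∈ IntermediateField.adjoin (Ck k K) (TT k K ∪ S) :=
    ⟨(IntermediateField.adjoin (Ck k K) (TT k K ∪ S)).toSubfield.toIntermediateField
      (fun f => mem_of_rat _ Set.subset_union_left f), fun y => Iff.rfl⟩
  have hEF : E ≤ F := by
    rw [hE, IntermediateField.adjoin_le_iff]
    rintro y (hy | hy)
    · exact (hF y).2 (IntermediateField.algebraMap_mem _ (⟨y, hy⟩ : Ck k K))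
    · exact (hF y).2 (IntermediateField.subset_adjoin _ _ (Or.inr hy))
  exact (hF _).1 (hEF hr)

end Pool.Agent.EFG
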