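import Pool.Agent.EFG.M2
import Pool.Agent.EFG.B5

/-!
# Descent from the algebraic closure of `k` to the finite field `k`, for the prime two
-/

set_option autoImplicit false

namespace Pool.Agent.EFG

open WeierstrassCurve WeierstrassCurve.Affine EFF Polynomial

/-- **Descent.** If `k` is finite, `2 ≠ 0`, `K` is a function field of one variable over `k` and the
`j`-invariant of `y² = x³ + A₂ x² + A₄ x + A₆` is not algebraic over `k`, then an element of `T₂ Ш`
which becomes trivial over the algebraic closure of `k` is trivial. -/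
theorem main {k K : Type} [Field k] [Finite k] [Field K] [Algebra k K] [FF k K]
    (h2 : (2 : k) ≠ 0) (W : WeierstrassCurve K) (h1 : W.a₁ = 0) (h3 : W.a₃ = 0) (hΔ : W.Δ ≠ 0)
    (hj : ∀ j : K, IsAlgebraic k j → W.c₄ ^ 3 ≠ j * W.Δ)
    (c : ℕ → (AlgebraicClosure K ≃ₐ[K] AlgebraicClosure K) → Pts W (AlgebraicClosure K))
    (hc : ShaSys W k 2 c) (hgeo : ∀ n, Principal W (T1B.geo k K (AlgebraicClosure K)) (c n))
    (n : ℕ) : Principal W ⊤ (c n) :=
  main_W h2 W h1 h3 hΔ hj (fin_quot h2 W h1 h3 hΔ) c hc hgeo n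

end Pool.Agent.EFG
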