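import Pool.Agent.EFG.P0

/-!
# The function fields in towers; the `j`-invariant is not algebraic
-/

set_option autoImplicit false

namespace Pool.Agent.EFG

open Polynomial

/-- the rational function field -/
theorem ff_top {k K : Type} [Field k] [Field K] [Algebra k K] {z : K} (hz : Transcendental k z)
    (h : IntermediateField.adjoin k {z} = ⊤) : FF k K := by
  refine ⟨z, hz, ?_⟩
  refine Module.Finite.of_surjective (Algebra.linearMap (IntermediateField.adjoin k {z}) K) ?_
  intro x
  have hx : x ∈ IntermediateField.adjoin k {z} := by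
    rw [h]
    exact IntermediateField.mem_top
  exact ⟨⟨x, hx⟩, rfl⟩

/-- a subfield of a tower -/
theorem ff_tower {k K Kb : Type} [Field k] [Field K] [Field Kb] [Algebra k K] [Algebra k Kb]
    [Algebra K Kb] [IsScalarTower k K Kb] {s : K} (hs : Transcendental k s) (S : Finset Kb)
    (hS : ∀ z ∈ S, ∃ φ F : k[X], derivative φ ≠ 0 ∧ aeval z φ = aeval (algebraMap K Kb s) F)
    (hK : ∀ a : K, algebraMap K Kb a ∈
      IntermediateField.adjoin k (insert (algebraMap K Kb s) (S : Set Kb))) : FF k K := by
  refine ⟨s, hs, ?_⟩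
  obtain ⟨F₀, hF₀⟩ : ∃ F₀ : IntermediateField k K, F₀ = IntermediateField.adjoin k {s} := ⟨_, rfl⟩
  rw [← hF₀]
  have hsF : s ∈ F₀ := by
    rw [hF₀]
    exact IntermediateField.subset_adjoin _ _ rfl
  have hpol : ∀ F : k[X], aeval s F ∈ F₀ := fun F => by
    have h1 : aeval (⟨s, hsF⟩ : F₀) F ∈ (⊤ : IntermediateField k F₀) := IntermediateField.mem_top
    have h2 : (aeval (⟨s, hsF⟩ : F₀) F : K) = aeval s F := by
      have := aeval_algebraMap_apply K (⟨s, hsF⟩ : F₀) F
      exact this.symm
    rw [← h2]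
    exact (aeval (⟨s, hsF⟩ : F₀) F).2
  have halg : ∀ z ∈ (S : Set Kb), IsIntegral F₀ z := by
    intro z hz
    obtain ⟨φ, F, h1, h2⟩ := hS z hz
    refine IsAlgebraic.isIntegral ⟨φ.map (algebraMap k F₀) - C ⟨aeval s F, hpol F⟩, ?_, ?_⟩
    · intro h0
      have h3 : derivative (φ.map (algebraMap k F₀)) = 0 := by
        rw [sub_eq_zero.1 h0, derivative_C]
      rw [derivative_map, Polynomial.map_eq_zero_iff (algebraMap k F₀).injective] at h3
      exact h1 h3
    · rw [map_sub, aeval_map_algebraMap, aeval_C, h2, aeval_algebraMap_apply]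
      exact sub_self _
  have hfin : FiniteDimensional F₀ (IntermediateField.adjoin F₀ (S : Set Kb)) :=
    IntermediateField.finiteDimensional_adjoin halg
  have hle : ∀ x ∈ IntermediateField.adjoin k (insert (algebraMap K Kb s) (S : Set Kb)),
      x ∈ IntermediateField.adjoin F₀ (S : Set Kb) := by
    intro x hx
    have h1 : IntermediateField.adjoin k (insert (algebraMap K Kb s) (S : Set Kb)) ≤
        (IntermediateField.adjoin F₀ (S : Set Kb)).restrictScalars k := by
      rw [IntermediateField.adjoin_le_iff]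
      rintro y (rfl | hy)
      · exact IntermediateField.algebraMap_mem (IntermediateField.adjoin F₀ (S : Set Kb))
          (⟨s, hsF⟩ : F₀)
      · exact IntermediateField.subset_adjoin F₀ _ hy
    exact h1 hx
  let f : K →ₐ[F₀] IntermediateField.adjoin F₀ (S : Set Kb) :=
    (IsScalarTower.toAlgHom F₀ K Kb).codRestrict
      (IntermediateField.adjoin F₀ (S : Set Kb)).toSubalgebra (fun a => hle _ (hK a))
  exact FiniteDimensional.of_injective f.toLinearMap f.injective

/-- the `j`-invariant of a curve over `k(s)`, not constant, is not algebraic over `k` -/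
theorem j_not_alg {k K : Type} [Field k] [Field K] [Algebra k K] (W : WeierstrassCurve k[X])
    (hΔ : W.Δ ≠ 0) (hj : ∀ j : k, W.c₄ ^ 3 ≠ C j * W.Δ) {s : K} (hs : Transcendental k s) :
    ∀ j : K, IsAlgebraic k j → aeval s W.c₄ ^ 3 ≠ j * aeval s W.Δ := by
  intro j hjal h
  have hs' : Transcendental (algebraicClosure k K) s := hs.algebraicClosure
  obtain ⟨j', hj'⟩ : ∃ j' : algebraicClosure k K, (j' : K) = j :=
    ⟨⟨j, mem_algebraicClosure_iff.2 hjal⟩, rfl⟩
  have h1 : (W.c₄ ^ 3).map (algebraMap k (algebraicClosure k K)) -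
      C j' * W.Δ.map (algebraMap k (algebraicClosure k K)) = 0 := by
    by_contra h0
    refine hs' ⟨_, h0, ?_⟩
    rw [map_sub, map_mul, aeval_map_algebraMap, aeval_map_algebraMap, aeval_C, map_pow, h]
    show j * aeval s W.Δ - (j' : K) * aeval s W.Δ = 0
    rw [hj', sub_self]
  rw [sub_eq_zero] at h1
  obtain ⟨n, hn⟩ : ∃ n, W.Δ.coeff n ≠ 0 := by
    by_contra h0
    push Not at h0
    exact hΔ (Polynomial.ext fun n => by rw [h0 n, coeff_zero])
  have h2 := congrArg (fun p => coeff p n) h1
  simp only [coeff_C_mul, coeff_map] at h2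
  have hinj := (algebraMap k (algebraicClosure k K)).injective
  have h3 : algebraMap k (algebraicClosure k K) ((W.c₄ ^ 3).coeff n / W.Δ.coeff n) = j' := by
    rw [map_div₀, h2, mul_div_assoc, div_self ((_root_.map_ne_zero _).2 hn), mul_one]
  apply hj ((W.c₄ ^ 3).coeff n / W.Δ.coeff n)
  apply Polynomial.map_injective _ hinj
  rw [h1, Polynomial.map_mul, Polynomial.map_C, h3]

end Pool.Agent.EFG
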