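import Pool.Agent.EFG.P0
import Pool.Agent.EFM.Ln

/-!
# The field of constants is finite; the Frobenius automorphism
-/

set_option autoImplicit false

namespace Pool.Agent.EFG

open Polynomial

variable {k K : Type} [Field k] [Field K] [Algebra k K]

/-- constants which are independent over `k` are independent over `k(z)` -/
theorem const_indep {z : K} (hz : Transcendental k z) {s : Finset (algebraicClosure k K)}
    (hs : LinearIndependent k (fun i : s => (i : algebraicClosure k K))) :
    LinearIndependent (IntermediateField.adjoin k {z})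
      (fun i : s => ((i : algebraicClosure k K) : K)) := by
  have hz' : Transcendental (algebraicClosure k K) z := hz.algebraicClosure
  classical
  rw [Fintype.linearIndependent_iff]
  intro g hg i
  -- common denominators
  have h1 : ∀ i : s, ∃ r q : k[X], (g i : K) = aeval z r / aeval z q := fun i =>
    (IntermediateField.mem_adjoin_simple_iff k _).1 (g i).2
  have h1' : ∀ i : s, ∃ r q : k[X], aeval z q ≠ 0 ∧ (g i : K) = aeval z r / aeval z q := by
    intro i
    obtain ⟨r, q, h⟩ := h1 i
    by_cases hq : aeval z q = 0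
    · refine ⟨0, 1, ?_, ?_⟩
      · rw [map_one]
        exact one_ne_zero
      · rw [h, hq, div_zero, map_zero, zero_div]
    · exact ⟨r, q, hq, h⟩
  choose r q hq hgi using h1'
  obtain ⟨Q, hQ⟩ : ∃ Q : k[X], Q = ∏ j, q j := ⟨_, rfl⟩
  have hQ0 : aeval z Q ≠ 0 := by
    rw [hQ, map_prod]
    exact Finset.prod_ne_zero_iff.2 fun j _ => hq j
  obtain ⟨R, hR⟩ : ∃ R : s → k[X], ∀ i, aeval z (R i) = (g i : K) * aeval z Q := by
    refine ⟨fun i => r i * ∏ j ∈ Finset.univ.erase i, q j, fun i => ?_⟩
    rw [hgi, hQ, ← Finset.mul_prod_erase Finset.univ q (Finset.mem_univ i), map_mul, map_mul]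
    field_simp [hq i]
  -- the polynomial
  obtain ⟨P, hP⟩ : ∃ P : (algebraicClosure k K)[X],
      P = ∑ i : s, C (i : algebraicClosure k K) * (R i).map (algebraMap k _) := ⟨_, rfl⟩
  have hP0 : aeval z P = 0 := by
    rw [hP, map_sum]
    have : ∀ i : s, aeval z (C (i : algebraicClosure k K) * (R i).map (algebraMap k _)) =
        ((i : algebraicClosure k K) : K) * ((g i : K) * aeval z Q) := by
      intro i
      rw [map_mul, aeval_C, aeval_map_algebraMap, hR]
      rfl
    rw [Finset.sum_congr rfl fun i _ => this i]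
    have h2 : ∑ i : s, (g i : K) * ((i : algebraicClosure k K) : K) = 0 := hg
    rw [← mul_zero (aeval z Q), ← h2, Finset.mul_sum]
    refine Finset.sum_congr rfl fun i _ => ?_
    ring
  have hP1 : P = 0 := by
    by_contra h
    exact hz' ⟨P, h, hP0⟩
  have hco : ∀ (n : ℕ) (i : s), (R i).coeff n = 0 := by
    intro n
    have h3 := congrArg (fun p => coeff p n) hP1
    rw [hP] at h3
    simp only [finsetSum_coeff, coeff_C_mul, coeff_map, coeff_zero] at h3
    have h4 : ∑ i : s, (R i).coeff n • (i : algebraicClosure k K) = 0 := by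
      rw [← h3]
      refine Finset.sum_congr rfl fun i _ => ?_
      rw [Algebra.smul_def, mul_comm]
    exact Fintype.linearIndependent_iff.1 hs _ h4
  have hRi : R i = 0 := Polynomial.ext fun n => by rw [hco n i, coeff_zero]
  have h5 := hR i
  rw [hRi, map_zero] at h5
  have h6 : (g i : K) = 0 := by
    rcases mul_eq_zero.1 h5.symm with h | h
    · exact h
    · exact absurd h hQ0
  exact Subtype.ext h6

/-- the field of constants is finite over `k` -/
theorem const_fin [FF k K] : FiniteDimensional k (algebraicClosure k K) := by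
  have h0 := z0_fin k K
  have h1 : Module.rank k (algebraicClosure k K) ≤
      (Module.finrank (IntermediateField.adjoin k {z0 k K}) K : ℕ) := by
    refine rank_le fun s hs => ?_
    have h2 := const_indep (z0_trans k K) hs
    have h3 := h2.fintype_card_le_finrank
    rwa [Fintype.card_coe] at h3
  have h4 : Module.rank k (algebraicClosure k K) < Cardinal.aleph0 :=
    h1.trans_lt (Cardinal.natCast_lt_aleph0)
  exact Module.rank_lt_aleph0_iff.1 h4

/-- **The Frobenius automorphism.** -/
theorem frob [Finite k] [FF k K] : ∃ φ : Kb K ≃ₐ[K] Kb K,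
    ∀ (S : Finset (Kb K)) (g : Kb K ≃ₐ[K] Kb K), ∃ (i : ℕ) (s : Kb K ≃ₐ[K] Kb K),
      s ∈ T1B.geo k K (Kb K) ∧ ∀ a ∈ S, g a = (φ ^ i * s) a := by
  have hf : FiniteDimensional k (algebraicClosure k K) := const_fin
  have hfin : Finite (algebraicClosure k K) := Module.finite_of_finite k
  obtain ⟨φ, hφ⟩ := EFF.ln_frob (k := algebraicClosure k K) (K := K) (Kb := Kb K) (fun a ha => by
    have h1 : IsAlgebraic k a := ha.restrictScalars k
    exact ⟨⟨a, mem_algebraicClosure_iff.2 h1⟩, rfl⟩)
  refine ⟨φ, fun S g => ?_⟩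
  obtain ⟨i, s, hs, h⟩ := hφ S g
  refine ⟨i, s, fun x hx => hs x ?_, h⟩
  exact hx.tower_top _

end Pool.Agent.EFG
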