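import Pool.Agent.EFG.M1
import Pool.Agent.EFN.F1

/-!
# Halving of crossed homomorphisms
-/

set_option autoImplicit false
set_option linter.unusedSectionVars false

namespace Pool.Agent.EFG

open WeierstrassCurve WeierstrassCurve.Affine EFF Pool.Agent.EFN

open scoped Classical

section

variable {k K : Type} [Field k] [Field K] [Algebra k K] (W : WeierstrassCurve K)

/-- locally trivial crossed homomorphisms -/
structure LT (k : Type) {K : Type} [Field k] [Field K] [Algebra k K] (W : WeierstrassCurve K)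
    (c : (Kb K ≃ₐ[K] Kb K) → Pts W (Kb K)) : Prop where
  crossed : Crossed W c
  loc : ∀ V : ValuationSubring (Kb K), (∀ x : k, algebraMap k (Kb K) x ∈ V) → V ≠ ⊤ →
    Principal W (T1B.stab V) c

variable {W}

/-- the coboundary of a point is a crossed homomorphism -/
theorem crossed_pt (P : Pts W (Kb K)) :
    Crossed W (fun g : Kb K ≃ₐ[K] Kb K => act W g P - P) := by
  refine ⟨(m_lc W P).sub (IsLocallyConstant.const P), fun g h => ?_⟩
  show act W (g * h) P - P = _
  rw [m_act_mul]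
  simp only [map_sub]
  abel

theorem Crossed.sub {c c' : (Kb K ≃ₐ[K] Kb K) → Pts W (Kb K)} (h : Crossed W c)
    (h' : Crossed W c') : Crossed W (fun g => c g - c' g) := by
  refine ⟨h.1.sub h'.1, fun g g' => ?_⟩
  show c (g * g') - c' (g * g') = _
  rw [h.2, h'.2]
  simp only [map_sub]
  abel

theorem Crossed.add {c c' : (Kb K ≃ₐ[K] Kb K) → Pts W (Kb K)} (h : Crossed W c)
    (h' : Crossed W c') : Crossed W (fun g => c g + c' g) := by
  refine ⟨h.1.add h'.1, fun g g' => ?_⟩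
  show c (g * g') + c' (g * g') = _
  rw [h.2, h'.2]
  simp only [map_add]
  abel

theorem Principal.sub {D : Subgroup (Kb K ≃ₐ[K] Kb K)}
    {c c' : (Kb K ≃ₐ[K] Kb K) → Pts W (Kb K)} (h : Principal W D c)
    (h' : Principal W D c') : Principal W D (fun g => c g - c' g) := by
  obtain ⟨P, hP⟩ := h
  obtain ⟨P', hP'⟩ := h'
  refine ⟨P - P', fun σ hσ => ?_⟩
  show c σ - c' σ = _
  rw [hP σ hσ, hP' σ hσ, map_sub]
  abel

theorem Principal.add {D : Subgroup (Kb K ≃ₐ[K] Kb K)}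
    {c c' : (Kb K ≃ₐ[K] Kb K) → Pts W (Kb K)} (h : Principal W D c)
    (h' : Principal W D c') : Principal W D (fun g => c g + c' g) := by
  obtain ⟨P, hP⟩ := h
  obtain ⟨P', hP'⟩ := h'
  refine ⟨P + P', fun σ hσ => ?_⟩
  show c σ + c' σ = _
  rw [hP σ hσ, hP' σ hσ, map_add]
  abel

theorem Principal.nsmul {D : Subgroup (Kb K ≃ₐ[K] Kb K)}
    {c : (Kb K ≃ₐ[K] Kb K) → Pts W (Kb K)} (h : Principal W D c) (n : ℕ) :
    Principal W D (fun g => n • c g) := by
  obtain ⟨P, hP⟩ := h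
  refine ⟨n • P, fun σ hσ => ?_⟩
  show n • c σ = _
  rw [hP σ hσ, map_nsmul, smul_sub]

theorem principal_pt (D : Subgroup (Kb K ≃ₐ[K] Kb K)) (P : Pts W (Kb K)) :
    Principal W D (fun g => act W g P - P) := ⟨P, fun _ _ => rfl⟩

theorem LT.sub {c c' : (Kb K ≃ₐ[K] Kb K) → Pts W (Kb K)} (h : LT k W c) (h' : LT k W c') :
    LT k W (fun g => c g - c' g) :=
  ⟨Crossed.sub h.crossed h'.crossed, fun V hV hV' => Principal.sub (h.loc V hV hV') (h'.loc V hV hV')⟩

theorem LT.add {c c' : (Kb K ≃ₐ[K] Kb K) → Pts W (Kb K)} (h : LT k W c) (h' : LT k W c') :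
    LT k W (fun g => c g + c' g) :=
  ⟨Crossed.add h.crossed h'.crossed, fun V hV hV' => Principal.add (h.loc V hV hV') (h'.loc V hV hV')⟩

theorem lt_pt (P : Pts W (Kb K)) : LT k W (fun g => act W g P - P) :=
  ⟨crossed_pt P, fun V _ _ => principal_pt _ P⟩

/-- **A class killed by two comes from the points of order two.** -/
theorem exists_two {e₁ e₂ e₃ : Kb K} (hW : Rts (W.baseChange (Kb K)).toAffine e₁ e₂ e₃)
    {c : (Kb K ≃ₐ[K] Kb K) → Pts W (Kb K)} (hc : LT k W c)
    (h2 : Principal W ⊤ (fun g => 2 • c g)) :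
    ∃ c' : (Kb K ≃ₐ[K] Kb K) → Pts W (Kb K), LT k W c' ∧ (∀ g, 2 • c' g = 0) ∧
      Principal W ⊤ (fun g => c g - c' g) := by
  obtain ⟨P, hP⟩ := h2
  obtain ⟨Q, hQ⟩ := exists_half hW P
  have hQ' : 2 • Q = P := by rw [two_nsmul]; exact hQ
  refine ⟨fun g => c g - (act W g Q - Q), hc.sub (lt_pt Q), fun g => ?_, Q, fun g _ => ?_⟩
  · have h := hP g trivial
    simp only at h
    rw [smul_sub, h, smul_sub, ← map_nsmul, hQ', sub_self]
  · show c g - (c g - (act W g Q - Q)) = _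
    abel

end

end Pool.Agent.EFG
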