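import Pool.Agent.EFG.F3

/-!
# Labels of locally trivial classes killed by two
-/

set_option autoImplicit false
set_option linter.unusedSectionVars false

namespace Pool.Agent.EFG

open WeierstrassCurve WeierstrassCurve.Affine EFF TIFL Pool.Agent.EFN

open scoped Classical

section

variable {k K : Type} [Field k] [Field K] [Algebra k K] [FF k K] [Finite k]

theorem orb_fin (x : Kb K) (N : Subgroup (Kb K ≃ₐ[K] Kb K)) :
    {y : Kb K | ∃ σ ∈ N, σ x = y}.Finite := by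
  have hint : IsIntegral K x := Algebra.IsIntegral.isIntegral x
  refine ((minpoly K x).rootSet_finite (Kb K)).subset ?_
  rintro y ⟨σ, -, rfl⟩
  rw [Polynomial.mem_rootSet]
  refine ⟨minpoly.ne_zero hint, ?_⟩
  have h : Polynomial.aeval (σ x) (minpoly K x) =
      σ (Polynomial.aeval x (minpoly K x)) :=
    Polynomial.aeval_algHom_apply (σ : Kb K →ₐ[K] Kb K) x (minpoly K x)
  rw [h, minpoly.aeval, map_zero]

theorem const_mem (V : ValuationSubring (Kb K)) (x : k) : algebraMap k (Kb K) x ∈ V := by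
  by_cases hx : x = 0
  · rw [hx, map_zero]
    exact zero_mem _
  obtain ⟨n, hn, h⟩ := isOfFinOrder_iff_pow_eq_one.1 (isOfFinOrder_of_finite (Units.mk0 x hx))
  have h1 : x ^ n = 1 := by
    have := congrArg (fun u : kˣ => (u : k)) h
    simpa using this
  rw [← V.valuation_le_one_iff]
  by_contra hlt
  push Not at hlt
  have h2 := one_lt_pow₀ hlt hn.ne'
  rw [← map_pow, ← map_pow, h1, map_one, map_one] at h2
  exact lt_irrefl _ h2

variable {W : WeierstrassCurve K}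

theorem sel_labels (h2 : (2 : k) ≠ 0) {e₁ e₂ e₃ : Kb K}
    (hW : Rts (W.baseChange (Kb K)).toAffine e₁ e₂ e₃) :
    ∃ (Λ : Type) (lab : ((Kb K ≃ₐ[K] Kb K) → Pts W (Kb K)) → Λ),
      (lab '' {c | LT k W c ∧ ∀ g, 2 • c g = 0}).Finite ∧
      ∀ c c', (LT k W c ∧ ∀ g, 2 • c g = 0) → (LT k W c' ∧ ∀ g, 2 • c' g = 0) → lab c = lab c' →
        ∀ s ∈ T1B.geo k K (Kb K), s e₁ = e₁ → s e₂ = e₂ → s e₃ = e₃ → c s = c' s := by
  -- the characteristic
  obtain ⟨p, hpk⟩ := CharP.exists k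
  have hpp : p.Prime := by
    rcases CharP.char_is_prime_or_zero k p with h | h
    · exact h
    · exfalso
      rw [h] at hpk
      have : CharZero k := CharP.charP_to_charZero k
      exact not_finite k
  have hpM : CharP (Kb K) p := charP_of_injective_algebraMap (algebraMap k (Kb K)).injective p
  have hexp : ExpChar (Kb K) p := ExpChar.prime hpp
  have hodd : Odd p := by
    refine hpp.odd_of_ne_two ?_
    rintro rfl
    exact h2 (by exact_mod_cast CharP.cast_eq_zero k 2)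
  let G : Set (Kb K) := {e₁, e₂, e₃}
  have hG : G.Finite := by simp [G]
  obtain ⟨R, _, _, ev, hinj, hcl, hun, hFr⟩ := exists_ev (k := k) (Ω := Kb K) h2
    (z := zz k K) (fun h => zz_trans (h.tower_top _)) ((TT_fin k K).union hG)
    (fun g _ => alg_z {zz k K} rfl g)
  obtain ⟨L, hL⟩ : ∃ L : IntermediateField (Ck k K) (Kb K),
    L = IntermediateField.adjoin (Ck k K) (TT k K ∪ G) := ⟨_, rfl⟩
  have hzL : TT k K ∪ G ∪ {zz k K} = TT k K ∪ G := by
    rw [Set.union_eq_left, Set.singleton_subset_iff]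
    exact Or.inl (zz_mem k K)
  rw [hzL, ← hL] at hFr
  have hLe : ∀ e ∈ G, e ∈ L := fun e he => by
    rw [hL]
    exact IntermediateField.subset_adjoin _ _ (Or.inr he)
  -- the bad places
  obtain ⟨D, hD⟩ : ∃ D : Kb K → Kb K → XX R →₀ ℤ, ∀ a b (h : a - b ≠ 0),
      D a b = dv ev (Units.mk0 (a - b) h) :=
    ⟨fun a b => if h : a - b ≠ 0 then dv ev (Units.mk0 (a - b) h) else 0,
      fun a b h => dif_pos h⟩
  obtain ⟨S, hSeq⟩ : ∃ S : Set (XX R), S = ⋃ a ∈ G, ⋃ b ∈ G, ((D a b).support : Set (XX R)) :=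
    ⟨_, rfl⟩
  have hS : S.Finite := by
    rw [hSeq]
    exact hG.biUnion fun a _ => hG.biUnion fun b _ => (D a b).support.finite_toSet
  have hSD : ∀ a ∈ G, ∀ b ∈ G, ∀ (h : a - b ≠ 0), ∀ v ∉ S, dv ev (Units.mk0 (a - b) h) v = 0 := by
    intro a ha b hb h v hv
    by_contra h0
    apply hv
    rw [hSeq]
    refine Set.mem_iUnion₂.2 ⟨a, ha, Set.mem_iUnion₂.2 ⟨b, hb, ?_⟩⟩
    rw [Finset.mem_coe, Finsupp.mem_support_iff, hD a b h]
    exact h0
  obtain ⟨Λ, lab, hfin, hlab⟩ := labels_p (p := p) hinj hodd hS hcl hun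
  -- the elements which are fixed
  have hfrp : ∀ u : (Kb K)ˣ, (∀ σ ∈ T1B.geo k K (Kb K), (∀ e ∈ G, σ e = e) →
      σ u = u) → Frp ev p u := by
    intro u hu
    obtain ⟨r, hr⟩ := fixed_mem p G u hu
    refine ⟨r, (hFr _).1 ?_⟩
    rw [hL, Units.val_pow_eq_pow_val]
    exact hr
  have hLs : ∀ σ ∈ T1B.geo k K (Kb K),
      (∀ e ∈ G, σ e = e) → ∀ t ∈ L, σ t = t := by
    intro σ hσ hσe t ht
    rw [hL] at ht
    induction ht using IntermediateField.adjoin_induction with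
    | mem x hx =>
      rcases hx with hx | hx
      · exact TT_fix k K hx σ
      · exact hσe x hx
    | algebraMap x => exact hσ _ (mem_Ck.1 x.2)
    | add x y _ _ hx hy => rw [map_add, hx, hy]
    | inv x _ hx => rw [map_inv₀, hx]
    | mul x y _ _ hx hy => rw [map_mul, hx, hy]
  have hs : ∀ s : (Kb K)ˣ, Frp ev p s → ∀ σ ∈ T1B.geo k K (Kb K),
      (∀ e ∈ G, σ e = e) → σ s = s := by
    rintro s ⟨n, hn⟩ σ hσ hσe
    have h4 := hLs σ hσ hσe _ ((hFr _).2 hn)
    rw [Units.val_pow_eq_pow_val, map_pow] at h4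
    exact iterateFrobenius_inj (Kb K) p n h4
  have hz : zz k K ∈ L := by
    rw [hL]
    exact IntermediateField.subset_adjoin _ _ (Or.inl (zz_mem k K))
  have hrat : ∀ f : K, algebraMap K (Kb K) f ∈ L := by
    intro f
    rw [hL]
    exact mem_of_rat _ Set.subset_union_left f
  have hLalg : ∀ x : Kb K, IsAlgebraic (L.restrictScalars k) x := by
    intro x
    have := alg_z (k := k) (TT k K ∪ G) (Or.inl (zz_mem k K)) x
    rw [← hL] at this
    exact this
  -- the Kummer elements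
  have kum : ∀ (a b d : Kb K), Rts (W.baseChange (Kb K)).toAffine a b d → a ∈ G → b ∈ G → d ∈ G →
      ∀ c : (Kb K ≃ₐ[K] Kb K) → Pts W (Kb K), LT k W c → (∀ g, 2 • c g = 0) →
      ∃ w : (Kb K)ˣ, (∀ σ ∈ T1B.geo k K (Kb K), (∀ e ∈ G, σ e = e) →
        σ w = (chi a (c σ) : (Kb K)ˣ) * w) ∧ Goodp ev S p (w ^ 2) := by
    intro a b d hR ha hb hd c hc hc2
    obtain ⟨N, hN⟩ : ∃ N : Subgroup (Kb K ≃ₐ[K] Kb K), ∀ σ, σ ∈ N ↔
        (σ ∈ T1B.geo k K (Kb K) ∧ ∀ e ∈ G, σ e = e) :=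
      ⟨T1B.geo k K (Kb K) ⊓ TBR.Fx K G, fun σ => Iff.rfl⟩
    have hchi : ∀ (σ : Kb K ≃ₐ[K] Kb K) (P : Pts W (Kb K)), σ • (chi a P) = chi a P := by
      intro σ P
      apply Units.ext
      rcases chi_or a P with h | h
      · rw [h]
        exact map_one σ
      · rw [h]
        show σ ((-1 : (Kb K)ˣ) : Kb K) = ((-1 : (Kb K)ˣ) : Kb K)
        rw [Units.val_neg, Units.val_one, map_neg, map_one]
    obtain ⟨T, hT, -⟩ := c_fin W c hc.crossed
    obtain ⟨w, -, hw⟩ := exists_kummer (k := K) (M := Kb K) (A := ⊤) (N := N)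
      (fun _ _ _ _ => IntermediateField.mem_top) (fun x _ => orb_fin x N)
      (fun σ => chi a (c σ))
      ⟨T, fun _ _ => IntermediateField.mem_top, fun σ _ τ _ h => by
        show chi a (c σ) = chi a (c τ)
        rw [hT σ τ (fun x hx => h x hx)]⟩
      (fun _ _ => IntermediateField.mem_top)
      (fun σ hσ τ hτ => by
        show chi a (c (σ * τ)) = chi a (c σ) * σ • chi a (c τ)
        have hσ' := ((hN σ).1 hσ).2
        rw [hc.crossed.2, act_two hR (hσ' a ha) (hσ' b hb) (hσ' d hd) (hc2 τ),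
          chi_mul hR (hc2 σ) (hc2 τ), hchi])
    have hw' : ∀ σ ∈ T1B.geo k K (Kb K), (∀ e ∈ G, σ e = e) →
        σ w = (chi a (c σ) : (Kb K)ˣ) * w := by
      intro σ hσ hσe
      exact congrArg (fun u : (Kb K)ˣ => (u : Kb K)) (hw σ ((hN σ).2 ⟨hσ, hσe⟩))
    refine ⟨w, hw', ?_⟩
    obtain ⟨n, hn⟩ := hfrp (w ^ 2) (by
      intro σ hσ hσe
      rw [Units.val_pow_eq_pow_val, map_pow, hw' σ hσ hσe]
      rcases chi_or a (c σ) with h | h <;> rw [h]
      · rw [Units.val_one, one_mul]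
      · rw [Units.val_neg, Units.val_one, neg_one_mul, neg_sq])
    refine ⟨n, hn, fun v hv => ?_⟩
    obtain ⟨V, hVR, hVt, hcrit⟩ := exists_place hinj v
    have hcr : ∀ e : (Kb K)ˣ, Fr ev e → (e ∈ V.unitGroup ↔ dv ev e v = 0) := by
      rintro e ⟨u, u', hu, hu', h⟩
      exact hcrit e u u' hu hu' h
    have hk : ∀ x : k, algebraMap k (Kb K) x ∈ V := const_mem V
    have val1 : ∀ x ∈ G, ∀ y ∈ G, x ≠ y → V.valuation (x - y) = 1 := by
      intro x hx y hy hxy
      have hxy' : x - y ≠ 0 := sub_ne_zero.2 hxy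
      have h3 := (hcr (Units.mk0 (x - y) hxy') ((hFr _).1 (sub_mem (hLe x hx) (hLe y hy)))).2
        (hSD x hx y hy hxy' v hv)
      exact (V.mem_unitGroup_iff _).1 h3
    obtain ⟨r, f, hf, hfu⟩ := TBR.vgr (k := k) (Ck k K) Ck_A1 p (L.restrictScalars k)
      (fun x hx => IntermediateField.algebraMap_mem L (⟨x, hx⟩ : Ck k K)) hLalg V
      (fun x hx => Ck_le hk hx) hVt w (by
        rintro σ ⟨hσF, hσV⟩
        have hσL : ∀ x ∈ L, σ x = x := fun x hx => hσF x hx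
        obtain ⟨s, hs⟩ : ∃ s : Kb K ≃ₐ[K] Kb K, ∀ x, s x = σ x :=
          ⟨AlgEquiv.ofRingEquiv (f := (σ : Kb K ≃+* Kb K)) (fun x => hσL _ (hrat x)), fun x => rfl⟩
        have hsg : s ∈ T1B.geo k K (Kb K) := by
          intro x hx
          rw [hs]
          exact hσL x (IntermediateField.algebraMap_mem L (⟨x, mem_Ck.2 hx⟩ : Ck k K))
        have hse : ∀ e ∈ G, s e = e := fun e he => by
          rw [hs]
          exact hσL e (hLe e he)
        have hsV : s ∈ T1B.stab V := fun x => by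
          rw [hs]
          exact hσV x
        have h0 : c s = 0 := unr hk hR hVt (val1 a ha b hb hR.n12) (val1 a ha d hd hR.n13)
          (val1 b hb d hd hR.n23) (hc.loc V hk hVt) hc2 hsV hsg (hse a ha) (hse b hb) (hse d hd)
        have h3 := hw' s hsg hse
        rw [h0, chi_zero, Units.val_one, one_mul, hs] at h3
        exact h3)
    have hfF : Fr ev f := (hFr f).1 hf
    have h3 := pow_mem hfu (2 * p ^ n)
    have e3 : (w ^ p ^ r * f⁻¹) ^ (2 * p ^ n) = ((w ^ 2) ^ p ^ n) ^ p ^ r * (f ^ (2 * p ^ n))⁻¹ := by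
      rw [mul_pow, inv_pow, ← pow_mul, ← pow_mul, ← pow_mul]
      congr 2
      ring
    rw [e3, hcr _ ((hn.pow _).mul (hfF.pow _).inv), dv_mul' hinj (hn.pow _) (hfF.pow _).inv,
      dv_inv' hinj (hfF.pow _), dv_pow' hinj hn, dv_pow' hinj hfF] at h3
    have h4 : Even (((p ^ r : ℕ) : ℤ) * dv ev ((w ^ 2) ^ p ^ n) v) := by
      refine ⟨((p ^ n : ℕ) : ℤ) * dv ev f v, ?_⟩
      push_cast at h3 ⊢
      linear_combination h3
    rcases Int.even_mul.1 h4 with h5 | h5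
    · exfalso
      have h6 : Odd (p ^ r) := hodd.pow
      rw [← Nat.not_even_iff_odd] at h6
      exact h6 (by exact_mod_cast h5)
    · exact h5
  have m₁ : e₁ ∈ G := by simp [G]
  have m₂ : e₂ ∈ G := by simp [G]
  have m₃ : e₃ ∈ G := by simp [G]
  have hex : ∀ (a b d : Kb K), Rts (W.baseChange (Kb K)).toAffine a b d → a ∈ G → b ∈ G → d ∈ G →
      ∀ c : (Kb K ≃ₐ[K] Kb K) → Pts W (Kb K), ∃ w : (Kb K)ˣ,
        (LT k W c ∧ ∀ g, 2 • c g = 0) →
        (∀ σ ∈ T1B.geo k K (Kb K), (∀ e ∈ G, σ e = e) →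
        σ w = (chi a (c σ) : (Kb K)ˣ) * w) ∧ Goodp ev S p (w ^ 2) := by
    intro a b d hR ha hb hd c
    by_cases h : LT k W c ∧ ∀ g, 2 • c g = 0
    · obtain ⟨w, hw⟩ := kum a b d hR ha hb hd c h.1 h.2
      exact ⟨w, fun _ => hw⟩
    · exact ⟨1, fun h' => absurd h' h⟩
  choose ω hω using hex e₁ e₂ e₃ hW m₁ m₂ m₃
  choose ω' hω' using hex e₂ e₃ e₁ hW.rot m₂ m₃ m₁
  refine ⟨Λ × Λ, fun c => (lab (ω c ^ 2), lab (ω' c ^ 2)), ?_, ?_⟩
  · refine (hfin.prod hfin).subset ?_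
    rintro _ ⟨c, hc, rfl⟩
    exact ⟨⟨_, (hω c hc).2, rfl⟩, ⟨_, (hω' c hc).2, rfl⟩⟩
  · intro c c' hc hc' hl s hsg f₁ f₂ f₃
    have hse : ∀ e ∈ G, s e = e := by
      rintro e (rfl | rfl | rfl)
      · exact f₁
      · exact f₂
      · exact f₃
    have key : ∀ (a : Kb K) (w w' : (Kb K)ˣ), s w = (chi a (c s) : (Kb K)ˣ) * w →
        s w' = (chi a (c' s) : (Kb K)ˣ) * w' → Goodp ev S p (w ^ 2) → Goodp ev S p (w' ^ 2) →
        lab (w ^ 2) = lab (w' ^ 2) → chi a (c s) * chi a (c' s) = 1 := by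
      intro a w w' h h' hg hg' hll
      obtain ⟨t, ht, htt⟩ := hlab _ _ hg hg' hll
      have h3 : ((w * w' : (Kb K)ˣ) : Kb K) ^ 2 = (t : Kb K) ^ 2 := by
        rw [← Units.val_pow_eq_pow_val, ← Units.val_pow_eq_pow_val, ← htt, mul_pow]
      have h4 : s ((w * w' : (Kb K)ˣ) : Kb K) = ((w * w' : (Kb K)ˣ) : Kb K) := by
        rcases sq_eq_sq_iff_eq_or_eq_neg.1 h3 with h5 | h5
        · rw [h5, hs t ht s hsg hse]
        · rw [h5, map_neg, hs t ht s hsg hse]
      apply Units.ext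
      rw [Units.val_mul, map_mul, h, h'] at h4
      rw [Units.val_mul, Units.val_one]
      have h5 : (w : Kb K) * w' ≠ 0 := mul_ne_zero w.ne_zero w'.ne_zero
      apply mul_right_cancel₀ h5
      rw [one_mul]
      linear_combination h4
    have k1 := key e₁ _ _ ((hω c hc).1 s hsg hse) ((hω c' hc').1 s hsg hse) (hω c hc).2
      (hω c' hc').2 (congrArg Prod.fst hl)
    have k2 := key e₂ _ _ ((hω' c hc).1 s hsg hse) ((hω' c' hc').1 s hsg hse) (hω' c hc).2
      (hω' c' hc').2 (congrArg Prod.snd hl)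
    rw [← chi_mul hW (hc.2 s) (hc'.2 s)] at k1
    rw [← chi_mul hW.rot (hc.2 s) (hc'.2 s)] at k2
    have h5 := chi_both hW k1 k2
    have h6 := hc'.2 s
    rw [two_nsmul] at h6
    rw [eq_neg_of_add_eq_zero_left h5, ← eq_neg_of_add_eq_zero_left h6]

end

end Pool.Agent.EFG
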