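import Pool.Agent.EFN.H2
import Pool.Agent.EFN.H3
import Pool.Agent.EFN.Q1
import Pool.Agent.EFG.P0

/-!
# The torsion points of `2`-power order
-/

set_option autoImplicit false
set_option linter.unusedSectionVars false

namespace Pool.Agent.EFG

open WeierstrassCurve WeierstrassCurve.Affine Pool.Agent.EFN

open scoped Classical

section

variable {k K : Type} [Field k] [Field K] [Algebra k K] (W : WeierstrassCurve K)

/-- the points fixed by the automorphisms over the algebraic closure of `k` -/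
def Fix (k : Type) {K : Type} [Field k] [Field K] [Algebra k K] (W : WeierstrassCurve K)
    (P : EFF.Pts W (Kb K)) : Prop :=
  ∀ s ∈ T1B.geo k K (Kb K), EFF.act W s P = P

variable [FF k K]

theorem lam_trans {e₁ e₂ e₃ : Kb K} (hW : Rts (W.baseChange (Kb K)).toAffine e₁ e₂ e₃)
    (hj : ∀ j : K, IsAlgebraic k j → W.c₄ ^ 3 ≠ j * W.Δ) :
    Transcendental (Ck k K) ((e₂ - e₁) / (e₃ - e₁)) := by
  intro halg
  have nb : e₂ - e₁ ≠ 0 := sub_ne_zero.2 hW.n12.symm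
  have nc : e₃ - e₁ ≠ 0 := sub_ne_zero.2 hW.n13.symm
  have nd : e₂ - e₃ ≠ 0 := sub_ne_zero.2 hW.n23
  obtain ⟨l, hl⟩ : ∃ l, l = (e₂ - e₁) / (e₃ - e₁) := ⟨_, rfl⟩
  rw [← hl] at halg
  have hlk : IsAlgebraic k l := alg_k halg
  obtain ⟨j', hj'⟩ : ∃ j', j' = 256 * (l ^ 2 - l + 1) ^ 3 / (l ^ 2 * (l - 1) ^ 2) := ⟨_, rfl⟩
  have hmem : j' ∈ Ck k K := by
    have h1 : l ∈ Ck k K := mem_Ck.2 hlk
    rw [hj']
    refine div_mem (mul_mem ?_ (pow_mem ?_ 3)) (mul_mem (pow_mem h1 2) (pow_mem ?_ 2))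
    · exact_mod_cast natCast_mem (Ck k K) 256
    · exact add_mem (sub_mem (pow_mem h1 2) h1) (one_mem _)
    · exact sub_mem h1 (one_mem _)
  have hjk : IsAlgebraic k j' := mem_Ck.1 hmem
  have h16 : (16 : Kb K) ≠ 0 := by
    have h2 := pow_ne_zero 4 hW.two
    intro h0
    apply h2
    rw [← h0]
    norm_num
  have hc4 : algebraMap K (Kb K) W.c₄ =
      16 * ((e₂ - e₁) ^ 2 - (e₂ - e₁) * (e₃ - e₁) + (e₃ - e₁) ^ 2) := by
    have h1 : algebraMap K (Kb K) W.c₄ = (W.baseChange (Kb K)).toAffine.c₄ :=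
      (W.map_c₄ _).symm
    rw [h1, WeierstrassCurve.c₄, WeierstrassCurve.b₂, WeierstrassCurve.b₄, hW.a1, hW.a2, hW.a3,
      hW.a4]
    ring
  have hΔ : algebraMap K (Kb K) W.Δ =
      16 * ((e₂ - e₁) * (e₃ - e₁) * (e₂ - e₃)) ^ 2 := by
    have h1 : algebraMap K (Kb K) W.Δ = (W.baseChange (Kb K)).toAffine.Δ :=
      (W.map_Δ _).symm
    rw [h1, WeierstrassCurve.Δ, WeierstrassCurve.b₂, WeierstrassCurve.b₄, WeierstrassCurve.b₆,
      WeierstrassCurve.b₈, hW.a1, hW.a2, hW.a3, hW.a4, hW.a6]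
    ring
  have hΔ0 : algebraMap K (Kb K) W.Δ ≠ 0 := by
    rw [hΔ]
    exact mul_ne_zero h16 (pow_ne_zero 2 (mul_ne_zero (mul_ne_zero nb nc) nd))
  have hl0 : l ≠ 0 := by rw [hl]; exact div_ne_zero nb nc
  have hbl : e₂ - e₁ = l * (e₃ - e₁) := by rw [hl, div_mul_cancel₀ _ nc]
  have hd : e₂ - e₃ = (l - 1) * (e₃ - e₁) := by linear_combination hbl
  have hl1 : l - 1 ≠ 0 := by
    intro h0
    rw [h0, zero_mul] at hd
    exact nd hd
  have key : algebraMap K (Kb K) W.c₄ ^ 3 = j' * algebraMap K (Kb K) W.Δ := by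
    rw [hc4, hΔ, hj', hd, hbl]
    field_simp
    ring
  have h3 : algebraMap K (Kb K) (W.c₄ ^ 3 / W.Δ) = j' := by
    rw [map_div₀, map_pow, key, mul_div_assoc, div_self hΔ0, mul_one]
  have h4 : IsAlgebraic k (W.c₄ ^ 3 / W.Δ) := by
    rw [← h3] at hjk
    exact (isAlgebraic_algebraMap_iff (algebraMap K (Kb K)).injective).1 hjk
  apply hj _ h4
  have hΔ1 : W.Δ ≠ 0 := by
    intro h0
    apply hΔ0
    rw [h0, map_zero]
  rw [div_mul_cancel₀ _ hΔ1]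

/-- the points with a multiple `(e₁, 0)` -/
theorem bound_one (p : ℕ) [Fact p.Prime] [CharP k p] (hp2 : p ≠ 2) {e₁ e₂ e₃ : Kb K}
    (hW : Rts (W.baseChange (Kb K)).toAffine e₁ e₂ e₃)
    (hj : ∀ j : K, IsAlgebraic k j → W.c₄ ^ 3 ≠ j * W.Δ)
    (h₁ : (W.baseChange (Kb K)).toAffine.Nonsingular e₁ 0) :
    ∃ N : ℕ, ∀ (n : ℕ) (P : EFF.Pts W (Kb K)), 0 < n → Fix k W P →
      2 ^ n • P = Point.some e₁ 0 h₁ → n ≤ N := by
  have hcp : CharP (Kb K) p := charP_of_injective_algebraMap (algebraMap k (Kb K)).injective p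
  have hexp : ExpChar (Kb K) p := ExpChar.prime (Fact.out : p.Prime)
  have hw := lam_trans W hW hj
  have nb : e₂ - e₁ ≠ 0 := sub_ne_zero.2 hW.n12.symm
  have nc : e₃ - e₁ ≠ 0 := sub_ne_zero.2 hW.n13.symm
  obtain ⟨v, hv, hvw, hvD⟩ := exists_qv hw (alg_w hw)
  obtain ⟨D, hD, hDm⟩ := hvD (TT k K ∪ {e₁, e₂, e₃}) ((TT_fin k K).union (by simp))
  have h2 : v 2 = 0 := by
    have h3 : (2 : Ck k K) ≠ 0 := by
      intro h0
      apply hW.two
      have := congrArg (algebraMap (Ck k K) (Kb K)) h0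
      rwa [map_ofNat, map_zero] at this
    have := hv.cst 2 h3
    rwa [map_ofNat] at this
  have hsr : v (e₂ - e₁) - v (e₃ - e₁) = 1 := by rw [← hv.div nb nc]; exact hvw
  refine ⟨D, fun n P hn hP hnP => ?_⟩
  obtain ⟨x, y, h, hPe, hy, o, ho, ho0, ho1, hov⟩ := halves hv hW h2 rfl rfl (by linarith) h₁ n hn P hnP
  rw [hsr, one_mul] at hov
  have hx1 : x - e₁ ≠ 0 := by
    intro h0
    have hEQ := (hW.eqn x y).1 h.1
    rw [h0, zero_mul, zero_mul] at hEQ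
    exact hy (pow_eq_zero_iff (two_ne_zero) |>.1 hEQ)
  have hxfix : ∀ σ ∈ T1B.geo k K (Kb K), (∀ y ∈ (∅ : Set (Kb K)), σ y = y) → σ x = x := by
    intro σ hσ _
    have := hP σ hσ
    rw [hPe] at this
    exact ((act_eq_iff W σ h).1 this).1
  obtain ⟨m, hm⟩ := fixed_mem p ∅ x hxfix
  have hS : IntermediateField.adjoin (Ck k K) (TT k K ∪ ∅) ≤
      IntermediateField.adjoin (Ck k K) (TT k K ∪ {e₁, e₂, e₃}) := by
    apply IntermediateField.adjoin.mono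
    rw [Set.union_empty]
    exact Set.subset_union_left
  have hmem1 : (x - e₁) ^ p ^ m ∈ IntermediateField.adjoin (Ck k K) (TT k K ∪ {e₁, e₂, e₃}) := by
    rw [sub_pow_expChar_pow]
    exact sub_mem (hS hm) (pow_mem (IntermediateField.subset_adjoin _ _ (by simp)) _)
  have hmem2 : e₃ - e₁ ∈ IntermediateField.adjoin (Ck k K) (TT k K ∪ {e₁, e₂, e₃}) :=
    sub_mem (IntermediateField.subset_adjoin _ _ (by simp))
      (IntermediateField.subset_adjoin _ _ (by simp))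
  obtain ⟨m1, hm1⟩ := hDm _ hmem1 (pow_ne_zero _ hx1)
  obtain ⟨m2, hm2⟩ := hDm _ hmem2 nc
  rw [hv.pow hx1] at hm1
  have e1 : ((p ^ m * D * o : ℕ) : ℚ) = ((2 ^ n * (m1 - p ^ m * m2) : ℤ) : ℚ) := by
    push_cast
    rw [← hov, ← hm1, ← hm2]
    push_cast
    ring
  have e2 : ((p ^ m * D * o : ℕ) : ℤ) = 2 ^ n * (m1 - p ^ m * m2) := by exact_mod_cast e1
  have e3 : 2 ^ n ∣ p ^ m * D * o := by
    have : ((2 ^ n : ℕ) : ℤ) ∣ ((p ^ m * D * o : ℕ) : ℤ) := by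
      rw [e2]
      push_cast
      exact dvd_mul_right _ _
    exact_mod_cast this
  have hodd : Nat.Coprime (2 ^ n) (p ^ m) := by
    apply Nat.Coprime.pow
    exact ((Nat.coprime_primes Nat.prime_two (Fact.out : p.Prime)).2 hp2.symm)
  have hodd2 : Nat.Coprime (2 ^ n) o := by
    apply Nat.Coprime.pow_left
    exact (Nat.coprime_two_left).2 ho
  have e4 : 2 ^ n ∣ D := by
    have h5 := hodd2.dvd_of_dvd_mul_right e3
    exact hodd.dvd_of_dvd_mul_left h5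
  exact (Nat.lt_two_pow_self).le.trans (Nat.le_of_dvd hD e4)

/-- **The torsion points of `2`-power order have bounded order.** -/
theorem tors_bd (p : ℕ) [Fact p.Prime] [CharP k p] (hp2 : p ≠ 2) {e₁ e₂ e₃ : Kb K}
    (hW : Rts (W.baseChange (Kb K)).toAffine e₁ e₂ e₃)
    (hj : ∀ j : K, IsAlgebraic k j → W.c₄ ^ 3 ≠ j * W.Δ) :
    ∃ e : ℕ, ∀ (n : ℕ) (P : EFF.Pts W (Kb K)), Fix k W P → 2 ^ n • P = 0 → 2 ^ e • P = 0 := by
  have g₁ : (W.baseChange (Kb K)).toAffine.Nonsingular e₁ 0 := hW.nons (by ring)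
  have g₂ : (W.baseChange (Kb K)).toAffine.Nonsingular e₂ 0 := hW.nons (by ring)
  have g₃ : (W.baseChange (Kb K)).toAffine.Nonsingular e₃ 0 := hW.nons (by ring)
  obtain ⟨N₁, hN₁⟩ := bound_one W p hp2 hW hj g₁
  obtain ⟨N₂, hN₂⟩ := bound_one W p hp2 hW.rot hj g₂
  obtain ⟨N₃, hN₃⟩ := bound_one W p hp2 hW.rot.rot hj g₃
  refine ⟨N₁ + N₂ + N₃ + 1, fun n P hP hn => ?_⟩
  by_contra hcon
  have hex : ∃ m, 2 ^ m • P = 0 := ⟨n, hn⟩
  obtain ⟨m, hm, hmin⟩ : ∃ m, 2 ^ m • P = 0 ∧ ∀ m' < m, 2 ^ m' • P ≠ 0 :=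
    ⟨Nat.find hex, Nat.find_spec hex, fun m' h => Nat.find_min hex h⟩
  have hmN : N₁ + N₂ + N₃ + 1 < m := by
    by_contra hle
    push Not at hle
    apply hcon
    obtain ⟨c, hc⟩ := Nat.exists_eq_add_of_le hle
    rw [hc, pow_add, mul_comm, mul_smul, hm, smul_zero]
  obtain ⟨m', rfl⟩ : ∃ m', m = m' + 1 := ⟨m - 1, by omega⟩
  have hQ : 2 ^ m' • P ≠ 0 := hmin m' (Nat.lt_succ_self _)
  obtain ⟨x, y, h, hPe⟩ : ∃ x y h, 2 ^ m' • P = Point.some x y h := by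
    rcases hc : 2 ^ m' • P with _ | ⟨x, y, h⟩
    · exact absurd hc hQ
    · exact ⟨x, y, h, rfl⟩
  have h2 : Point.some x y h + Point.some x y h = 0 := by
    rw [← hPe, ← two_nsmul, ← mul_smul, mul_comm, ← pow_succ, hm]
  have hy : y = 0 := by
    by_contra hy
    rw [Point.add_self_of_Y_ne (hW.ne_negy hy x)] at h2
    exact Point.some_ne_zero _ h2
  subst hy
  have heq := (hW.eqn x 0).1 h.1
  rw [zero_pow (two_ne_zero)] at heq
  rcases mul_eq_zero.1 heq.symm with h3 | h3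
  · rcases mul_eq_zero.1 h3 with h3 | h3
    · obtain rfl := sub_eq_zero.1 h3
      have := hN₁ m' P (by omega) hP hPe
      omega
    · obtain rfl := sub_eq_zero.1 h3
      have := hN₂ m' P (by omega) hP hPe
      omega
  · obtain rfl := sub_eq_zero.1 h3
    have := hN₃ m' P (by omega) hP hPe
    omega

end

end Pool.Agent.EFG
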