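import Pool.Agent.EFG.F4
import Pool.Agent.EFG.H4

/-!
# Finiteness of the locally trivial classes of order two
-/

set_option autoImplicit false
set_option linter.unusedSectionVars false

namespace Pool.Agent.EFG

open WeierstrassCurve WeierstrassCurve.Affine EFF TIFL Pool.Agent.EFN

open scoped Classical

section

variable {k K : Type} [Field k] [Field K] [Algebra k K] [FF k K] [Finite k] {W : WeierstrassCurve K}

/-- **The locally trivial crossed homomorphisms with values in the points of order two are finite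
in number.** -/
theorem sel_fin (h2 : (2 : k) ≠ 0) {e₁ e₂ e₃ : Kb K}
    (hW : Rts (W.baseChange (Kb K)).toAffine e₁ e₂ e₃) :
    {c : (Kb K ≃ₐ[K] Kb K) → Pts W (Kb K) | LT k W c ∧ ∀ g, 2 • c g = 0}.Finite := by
  obtain ⟨φ, hφ⟩ := frob (k := k) (K := K)
  obtain ⟨Λ, lab, hfin, hlab⟩ := sel_labels h2 hW
  let τ : (Kb K ≃ₐ[K] Kb K) → Kb K × Kb K × Kb K := fun σ => (σ e₁, σ e₂, σ e₃)
  obtain ⟨I, hI⟩ : ∃ I : Set (Kb K × Kb K × Kb K),
    I = τ '' (T1B.geo k K (Kb K) : Set (Kb K ≃ₐ[K] Kb K)) := ⟨_, rfl⟩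
  have hIfin : I.Finite := by
    refine ((orb_fin e₁ ⊤).prod ((orb_fin e₂ ⊤).prod (orb_fin e₃ ⊤))).subset ?_
    rw [hI]
    rintro _ ⟨σ, -, rfl⟩
    exact ⟨⟨σ, Subgroup.mem_top _, rfl⟩, ⟨σ, Subgroup.mem_top _, rfl⟩,
      ⟨σ, Subgroup.mem_top _, rfl⟩⟩
  have hg : ∀ t : I, ∃ g ∈ T1B.geo k K (Kb K), τ g = t := by
    rintro ⟨t, ht⟩
    rw [hI] at ht
    obtain ⟨g, hg, rfl⟩ := ht
    exact ⟨g, hg, rfl⟩
  choose γ hγ hγτ using hg
  have := hIfin.to_subtype
  have h2f : {P : Pts W (Kb K) | 2 • P = 0}.Finite := two_fin hW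
  refine Set.Finite.of_injOn
    (f := fun c : (Kb K ≃ₐ[K] Kb K) → Pts W (Kb K) => (lab c, (fun t : I => c (γ t)), c φ))
    (t := (lab '' {c | LT k W c ∧ ∀ g, 2 • c g = 0}) ×ˢ
      ({h : I → Pts W (Kb K) | ∀ t, h t ∈ {P : Pts W (Kb K) | 2 • P = 0}} ×ˢ
        {P : Pts W (Kb K) | 2 • P = 0})) ?_ ?_
    (hfin.prod ((Set.Finite.pi' (fun _ => h2f)).prod h2f))
  · rintro c hc
    exact ⟨⟨c, hc, rfl⟩, fun t => hc.2 _, hc.2 _⟩
  · intro c hc c' hc' he
    have l1 : lab c = lab c' := congrArg Prod.fst he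
    have l2 : (fun t : I => c (γ t)) = fun t : I => c' (γ t) := congrArg (fun z => z.2.1) he
    have l3 : c φ = c' φ := congrArg (fun z => z.2.2) he
    have hN := hlab c c' hc hc' l1
    have hgeo : ∀ g ∈ T1B.geo k K (Kb K), c g = c' g := by
      intro g hg
      obtain ⟨t, ht⟩ : ∃ t : I, (t : Kb K × Kb K × Kb K) = τ g :=
        ⟨⟨τ g, by rw [hI]; exact ⟨g, hg, rfl⟩⟩, rfl⟩
      have h3 : τ (γ t) = τ g := (hγτ t).trans ht
      obtain ⟨n, hn⟩ : ∃ n, n = (γ t)⁻¹ * g := ⟨_, rfl⟩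
      have hgn : g = γ t * n := by rw [hn, mul_inv_cancel_left]
      have f : ∀ e : Kb K, γ t e = g e → n e = e := by
        intro e h
        rw [hn, AlgEquiv.mul_apply, ← h]
        exact (γ t).symm_apply_apply e
      have h4 := hN n (by rw [hn]; exact mul_mem (inv_mem (hγ t)) hg)
        (f _ (congrArg Prod.fst h3)) (f _ (congrArg (fun z => z.2.1) h3))
        (f _ (congrArg (fun z => z.2.2) h3))
      rw [hgn, hc.1.crossed.2, hc'.1.crossed.2, h4, congrFun l2 t]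
    have hpow : ∀ i : ℕ, c (φ ^ i) = c' (φ ^ i) := by
      intro i
      induction i with
      | zero => rw [pow_zero, m_one W c hc.1.crossed, m_one W c' hc'.1.crossed]
      | succ n ih => rw [pow_succ, hc.1.crossed.2, hc'.1.crossed.2, ih, l3]
    obtain ⟨T, hT, -⟩ := c_fin W c hc.1.crossed
    obtain ⟨T', hT', -⟩ := c_fin W c' hc'.1.crossed
    funext g
    obtain ⟨i, s, hs, hgs⟩ := hφ (T ∪ T') g
    rw [hT g (φ ^ i * s) fun a ha => hgs a (Finset.mem_union_left _ ha),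
      hT' g (φ ^ i * s) fun a ha => hgs a (Finset.mem_union_right _ ha),
      hc.1.crossed.2, hc'.1.crossed.2, hpow, hgeo s hs]

end

end Pool.Agent.EFG
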